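import Mathlib
set_option autoImplicit false
set_option linter.unusedSectionVars false

/-! Fixed points of the mean-Aluthge transform. -/

namespace Pool.Agent.Q301.MA

open scoped InnerProductSpace
open ContinuousLinearMap Set Filter Topology

variable {H : Type*} [NormedAddCommGroup H] [InnerProductSpace ℂ H] [CompleteSpace H]

/-- polar decomposition data -/
structure Pol (T V P : H →L[ℂ] H) : Prop where
  pos : 0 ≤ P
  sq : P * P = star T * T
  eq : T = V * P
  pi : V * star V * V = V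
  ker : ∀ x, V x = 0 ↔ T x = 0

/-- the quadratic form of an operator -/
noncomputable def q (P : H →L[ℂ] H) (x : H) : ℝ := RCLike.re (inner ℂ (P x) x)

lemma mulx (X Y : H →L[ℂ] H) (x : H) : (X * Y) x = X (Y x) := rfl

lemma star_inner (X : H →L[ℂ] H) (x y : H) : inner ℂ (star X x) y = inner ℂ x (X y) := by
  rw [star_eq_adjoint, adjoint_inner_left]

lemma sa_inner {P : H →L[ℂ] H} (hP : 0 ≤ P) (x y : H) : inner ℂ (P x) y = inner ℂ x (P y) := by
  have h : star P = P := (IsSelfAdjoint.of_nonneg hP).star_eq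
  conv_lhs => rw [← h]
  exact star_inner P x y

lemma q_nonneg {P : H →L[ℂ] H} (hP : 0 ≤ P) (x : H) : 0 ≤ q P x :=
  ((nonneg_iff_isPositive P).1 hP).re_inner_nonneg_left x

lemma le_iff {X Y : H →L[ℂ] H} (hX : 0 ≤ X) (hY : 0 ≤ Y) : X ≤ Y ↔ ∀ x, q X x ≤ q Y x := by
  rw [← sub_nonneg, nonneg_iff_isPositive]
  constructor
  · intro h x
    have := h.re_inner_nonneg_left x
    rw [sub_apply, inner_sub_left, map_sub] at this
    unfold q; linarith
  · intro h
    rw [isPositive_def']
    refine ⟨(IsSelfAdjoint.of_nonneg hY).sub (IsSelfAdjoint.of_nonneg hX), fun x => ?_⟩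
    rw [reApplyInnerSelf_apply, sub_apply, inner_sub_left, map_sub]
    have := h x
    unfold q at this; linarith

lemma sq_norm (X : H →L[ℂ] H) (x : H) : q (star X * X) x = ‖X x‖ ^ 2 := by
  unfold q
  rw [mulx, star_inner, inner_self_eq_norm_sq_to_K]
  norm_cast

lemma sq_mono {X Y : H →L[ℂ] H} (hX : 0 ≤ X) (hY : 0 ≤ Y) (h : ∀ x, ‖X x‖ ≤ ‖Y x‖) : X ≤ Y := by
  have hX' : star X = X := (IsSelfAdjoint.of_nonneg hX).star_eq
  have hY' : star Y = Y := (IsSelfAdjoint.of_nonneg hY).star_eq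
  have h1 : X * X ≤ Y * Y := by
    have h2 : star X * X ≤ star Y * Y := by
      rw [le_iff (star_mul_self_nonneg X) (star_mul_self_nonneg Y)]
      intro x
      rw [sq_norm, sq_norm]
      exact pow_le_pow_left₀ (norm_nonneg _) (h x) 2
    rwa [hX', hY'] at h2
  have h3 := CFC.sqrt_le_sqrt _ _ h1
  rwa [CFC.sqrt_mul_self X hX, CFC.sqrt_mul_self Y hY] at h3

section pol

variable {T V P A : H →L[ℂ] H}

lemma Pol.norm (h : Pol T V P) (x : H) : ‖T x‖ = ‖P x‖ := by
  have hP' : star P = P := (IsSelfAdjoint.of_nonneg h.pos).star_eq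
  have h1 : q (star T * T) x = q (star P * P) x := by rw [hP', h.sq]
  rw [sq_norm, sq_norm] at h1
  exact (sq_eq_sq₀ (norm_nonneg _) (norm_nonneg _)).1 h1

lemma Pol.kerP (h : Pol T V P) (x : H) : V x = 0 ↔ P x = 0 := by
  rw [h.ker, ← norm_eq_zero, h.norm, norm_eq_zero]

lemma Pol.FP (h : Pol T V P) : P * (star V * V) = P := by
  ext x
  have h1 : V (x - (star V * V) x) = 0 := by
    rw [map_sub, sub_eq_zero]
    have := congrArg (fun Z : H →L[ℂ] H => Z x) h.pi
    simpa [mulx] using this.symm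
  have h2 := (h.kerP _).1 h1
  rw [map_sub, sub_eq_zero] at h2
  rw [mulx, ← h2]

lemma norm_half (hA : 0 ≤ A) (hAP : A * A = P) (x : H) : ‖A x‖ ^ 2 = q P x := by
  rw [← sq_norm, (IsSelfAdjoint.of_nonneg hA).star_eq, hAP]

lemma Pol.AF (h : Pol T V P) (hA : 0 ≤ A) (hAP : A * A = P) : A * (star V * V) = A := by
  ext x
  have h1 : P (x - (star V * V) x) = 0 := by
    rw [map_sub, sub_eq_zero]
    have := congrArg (fun Z : H →L[ℂ] H => Z x) h.FP
    simpa [mulx] using this.symm
  have h2 : ‖A (x - (star V * V) x)‖ ^ 2 = 0 := by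
    rw [norm_half hA hAP]
    unfold q
    rw [h1, inner_zero_left, map_zero]
  have h3 : A (x - (star V * V) x) = 0 := by
    rwa [sq_eq_zero_iff, norm_eq_zero] at h2
  rw [map_sub, sub_eq_zero] at h3
  rw [mulx, ← h3]

lemma Pol.FA (h : Pol T V P) (hA : 0 ≤ A) (hAP : A * A = P) : (star V * V) * A = A := by
  have := congrArg star (h.AF hA hAP)
  rwa [star_mul, star_mul, star_star, (IsSelfAdjoint.of_nonneg hA).star_eq] at this

lemma Pol.FP' (h : Pol T V P) : (star V * V) * P = P := by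
  have := congrArg star h.FP
  rwa [star_mul, star_mul, star_star, (IsSelfAdjoint.of_nonneg h.pos).star_eq] at this

lemma Pol.normVA (h : Pol T V P) (hA : 0 ≤ A) (hAP : A * A = P) (x y : H) :
    inner ℂ (V (A x)) (V y) = inner ℂ (A x) y := by
  rw [← star_inner]
  have := congrArg (fun Z : H →L[ℂ] H => Z x) (h.FA hA hAP)
  have h1 : star V (V (A x)) = A x := by simpa [mulx] using this
  rw [h1]

lemma Pol.norm_star (h : Pol T V P) (y : H) : ‖star V y‖ ^ 2 = ‖V (star V y)‖ ^ 2 := by
  have h1 : V (star V (V (star V y))) = V (star V y) := by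
    have := congrArg (fun Z : H →L[ℂ] H => Z (star V y)) h.pi
    simpa [mulx] using this
  have h2 : inner ℂ (V (star V y)) (V (star V y)) = inner ℂ (star V y) (star V y) := by
    have h3 : star V (V (star V y)) = star V y := by
      have := congrArg star h.pi
      rw [star_mul, star_mul, star_star] at this
      have := congrArg (fun Z : H →L[ℂ] H => Z y) this
      simpa [mulx] using this
    rw [← star_inner V (V (star V y)) (star V y), h3]
  rw [inner_self_eq_norm_sq_to_K, inner_self_eq_norm_sq_to_K] at h2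
  exact_mod_cast h2.symm

lemma Pol.norm_star_le (h : Pol T V P) (y : H) : ‖star V y‖ ≤ ‖y‖ := by
  have h1 : ‖V (star V y)‖ ^ 2 ≤ ‖V (star V y)‖ * ‖y‖ := by
    rw [← h.norm_star]
    have h2 : inner ℂ (star V y) (star V y) = inner ℂ y (V (star V y)) := star_inner V y _
    have h3 : ‖star V y‖ ^ 2 = ‖(inner ℂ (star V y) (star V y) : ℂ)‖ := by
      rw [inner_self_eq_norm_sq_to_K]; simp
    rw [h3, h2, mul_comm]
    exact norm_inner_le_norm _ _
  have h4 := h.norm_star y
  have h5 : ‖V (star V y)‖ = ‖star V y‖ :=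
    ((sq_eq_sq₀ (norm_nonneg _) (norm_nonneg _)).1 h4).symm
  rw [h5] at h1
  rcases (norm_nonneg (star V y)).eq_or_lt with h6 | h6
  · rw [← h6]; exact norm_nonneg _
  · nlinarith

/-- If the norm of `V* y` is that of `y`, then `y` is in the range of `V`. -/
lemma Pol.range (h : Pol T V P) {y : H} (hy : ‖star V y‖ = ‖y‖) : V (star V y) = y := by
  have h1 := h.norm_star y
  have h2 : (inner ℂ (V (star V y)) y : ℂ) = ((‖star V y‖ ^ 2 : ℝ) : ℂ) := by
    rw [← inner_conj_symm, ← star_inner, inner_self_eq_norm_sq_to_K]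
    simp
  have h3 : ‖y - V (star V y)‖ ^ 2 = 0 := by
    rw [@norm_sub_sq ℂ]
    have h4 : RCLike.re (inner ℂ y (V (star V y)) : ℂ) = ‖star V y‖ ^ 2 := by
      rw [← inner_conj_symm, h2, Complex.conj_ofReal]
      exact Complex.ofReal_re _
    rw [h4, ← h1, hy]
    ring
  rw [sq_eq_zero_iff, norm_eq_zero, sub_eq_zero] at h3
  exact h3.symm

end pol

end Pool.Agent.Q301.MA
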