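import Pool.Agent.Q301.MA.Main
set_option autoImplicit false
set_option linter.unusedSectionVars false

/-! Fixed points of the mean-Aluthge transform: conclusion. -/

namespace Pool.Agent.Q301.MA

open scoped InnerProductSpace
open ContinuousLinearMap Set Filter Topology

variable {H : Type*} [NormedAddCommGroup H] [InnerProductSpace ℂ H] [CompleteSpace H]
variable {T V P A W R : H →L[ℂ] H}

/-- the two forms are equal -/
theorem forms_eq (hT : Pol T V P) (hA : 0 ≤ A) (hAP : A * A = P) (hS : Pol (A * V * A) W R)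
    (hfix : T + T = A * V * A + R * W) {x0 : H} (hx0 : 0 < q P x0) (x : H) : q R x = q P x := by
  have hR := hS.pos
  have h0 := ineq0' hT hS hfix
  let KB : Set ℝ := {t | 0 ≤ t ∧ ∀ x, q R x ≤ t * q P x}
  have hKB2 : (2 : ℝ) ∈ KB := ⟨by norm_num, fun x => by linarith [h0 x, q_nonneg hR (W x)]⟩
  have hKBb : BddBelow KB := ⟨0, fun t ht => ht.1⟩
  obtain ⟨b, hbdef⟩ : ∃ b, b = sInf KB := ⟨_, rfl⟩
  have hb0 : 0 ≤ b := by rw [hbdef]; exact le_csInf ⟨2, hKB2⟩ fun t ht => ht.1
  have hb2 : b ≤ 2 := by rw [hbdef]; exact csInf_le hKBb hKB2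
  have hzero : ∀ x, q P x = 0 → q R x = 0 := fun x hx => by
    have := hKB2.2 x
    rw [hx, mul_zero] at this
    exact le_antisymm this (q_nonneg hR x)
  have hb : ∀ x, q R x ≤ b * q P x := by
    intro x
    rcases (q_nonneg hT.pos x).eq_or_lt with h | h
    · rw [hzero x h.symm, ← h, mul_zero]
    · rw [← div_le_iff₀ h, hbdef]
      exact le_csInf ⟨2, hKB2⟩ fun t ht => (div_le_iff₀ h).2 (ht.2 x)
  let KA : Set ℝ := {t | 0 ≤ t ∧ ∀ x, t * q P x ≤ q R x}
  have hKA0 : (0 : ℝ) ∈ KA := ⟨le_rfl, fun x => by rw [zero_mul]; exact q_nonneg hR x⟩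
  have hKAb' : ∀ t ∈ KA, t ≤ b := fun t ht => by
    have h1 := (ht.2 x0).trans (hb x0)
    exact le_of_mul_le_mul_right h1 hx0
  have hKAb : BddAbove KA := ⟨b, hKAb'⟩
  obtain ⟨a, hadef⟩ : ∃ a, a = sSup KA := ⟨_, rfl⟩
  have ha0 : 0 ≤ a := by rw [hadef]; exact le_csSup hKAb hKA0
  have hab : a ≤ b := by rw [hadef]; exact csSup_le ⟨0, hKA0⟩ hKAb'
  have ha : ∀ x, a * q P x ≤ q R x := by
    intro x
    rcases (q_nonneg hT.pos x).eq_or_lt with h | h
    · rw [← h, mul_zero]; exact q_nonneg hR x
    · rw [← le_div_iff₀ h, hadef]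
      exact csSup_le ⟨0, hKA0⟩ fun t ht => (le_div_iff₀ h).2 (ht.2 x)
  have h1 : a * b ^ 2 + b ≤ 2 := by
    by_contra hn
    push Not at hn
    have hbpos : 0 < b := by
      rcases hb0.eq_or_lt with h | h
      · rw [← h] at hn; norm_num at hn
      · exact h
    have hcont : Continuous fun t : ℝ => a * t ^ 2 + t := by fun_prop
    have hev : ∀ᶠ t in 𝓝 b, 2 < a * t ^ 2 + t := hcont.continuousAt.eventually (lt_mem_nhds hn)
    obtain ⟨t, ht1, ht2⟩ := ((hev.filter_mono nhdsWithin_le_nhds).and
      (Ioo_mem_nhdsLT hbpos)).exists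
    have htKB : t ∉ KB := fun h => by
      have := csInf_le hKBb h
      rw [← hbdef] at this
      linarith [ht2.2]
    obtain ⟨y, hy⟩ : ∃ y, t * q P y < q R y := by
      by_contra hn2
      push Not at hn2
      exact htKB ⟨ht2.1.le, hn2⟩
    have hp : 0 < q P y := by
      rcases (q_nonneg hT.pos y).eq_or_lt with h | h
      · rw [hzero y h.symm, ← h, mul_zero] at hy
        exact absurd hy (lt_irrefl _)
      · exact h
    have e1 := ineq1 hT hA hAP hS y
    have e2 := ha (W y)
    have e3 := h0 y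
    have e4 : a * q R y ^ 2 ≤ (2 * q P y - q R y) * q P y := by
      calc a * q R y ^ 2 ≤ a * (q P (W y) * q P y) := mul_le_mul_of_nonneg_left e1 ha0
        _ = (a * q P (W y)) * q P y := by ring
        _ ≤ (2 * q P y - q R y) * q P y := mul_le_mul_of_nonneg_right (by linarith) hp.le
    have e5 : (t * q P y) ^ 2 ≤ q R y ^ 2 :=
      pow_le_pow_left₀ (mul_nonneg ht2.1.le hp.le) hy.le 2
    have e6 : a * (t * q P y) ^ 2 ≤ a * q R y ^ 2 := mul_le_mul_of_nonneg_left e5 ha0
    have e7 : t * q P y * q P y ≤ q R y * q P y := mul_le_mul_of_nonneg_right hy.le hp.le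
    have e8 : (a * t ^ 2 + t) * q P y ^ 2 ≤ 2 * q P y ^ 2 := by nlinarith
    have e9 : 0 < q P y ^ 2 := by positivity
    have := le_of_mul_le_mul_right e8 e9
    linarith
  have h2 : 2 ≤ a * (1 + Real.sqrt (b * (2 - a))) := by
    have e1 := ineq2 hT hA hAP hS hfix hb0 (hab.trans hb2) hb ha
    set s := Real.sqrt (b * (2 - a)) with hs
    have hs0 : 0 ≤ s := Real.sqrt_nonneg _
    set z : ℝ := (1 + s) / 2 with hz
    have hz0 : 0 < z := by positivity
    have e2 : P ≤ z • R := by
      refine sq_mono hT.pos (smul_nonneg hz0.le hR) fun x => ?_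
      rw [show (z • R) x = z • R x from rfl, norm_smul, Real.norm_of_nonneg hz0.le, hz]
      linarith [e1 x]
    have e3 : ∀ x, q P x ≤ z * q R x := fun x => by
      have := (le_iff hT.pos (smul_nonneg hz0.le hR)).1 e2 x
      have h4 : q (z • R) x = z * q R x := by
        unfold q
        rw [show (z • R) x = ((z : ℝ) : ℂ) • R x from (Complex.coe_smul z (R x)).symm,
          inner_smul_left]
        simp
      rwa [h4] at this
    have e4 : 1 / z ∈ KA := ⟨by positivity, fun x => by
      rw [div_mul_eq_mul_div, one_mul, div_le_iff₀ hz0, mul_comm]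
      exact e3 x⟩
    have e5 : 1 / z ≤ a := by rw [hadef]; exact le_csSup hKAb e4
    rw [div_le_iff₀ hz0, hz] at e5
    linarith
  obtain ⟨ha1, hb1⟩ := numbers ha0 hab h1 h2
  have h3 := ha x
  have h4 := hb x
  rw [ha1, one_mul] at h3
  rw [hb1, one_mul] at h4
  exact le_antisymm h4 h3

theorem forward (hT : Pol T V P) (hA : 0 ≤ A) (hAP : A * A = P) (hS : Pol (A * V * A) W R)
    (hfix : T + T = A * V * A + R * W) : T * (star T * T) = star T * T * T := by
  by_cases hT0 : ∀ x, q P x = 0
  · have : T = 0 := by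
      ext x
      have h1 : ‖A x‖ ^ 2 = 0 := by rw [norm_half hA hAP, hT0]
      have h2 : A x = 0 := by rwa [sq_eq_zero_iff, norm_eq_zero] at h1
      have h3 : P x = 0 := by rw [← hAP, mulx, h2, map_zero]
      rw [hT.eq, mulx, h3, map_zero]
      rfl
    rw [this]; simp
  · push Not at hT0
    obtain ⟨x0, hx0⟩ := hT0
    have hx0' : 0 < q P x0 := lt_of_le_of_ne (q_nonneg hT.pos x0) (Ne.symm hx0)
    have hform := forms_eq hT hA hAP hS hfix hx0'
    have hRP : R = P := le_antisymm ((le_iff hS.pos hT.pos).2 fun x => (hform x).le)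
      ((le_iff hT.pos hS.pos).2 fun x => (hform x).ge)
    have hw : ∀ x, q R (W x) = q P x := by
      intro x
      have e1 := ineq1 hT hA hAP hS x
      have e2 := ineq0' hT hS hfix x
      rw [hform x] at e1 e2
      rw [← hform (W x)] at e1
      rcases (q_nonneg hT.pos x).eq_or_lt with h | h
      · have := q_nonneg hS.pos (W x)
        linarith
      · have : q P x * q P x ≤ q R (W x) * q P x := by nlinarith
        have := le_of_mul_le_mul_right this h
        linarith
    have hQ : star W * T = P := by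
      refine le_antisymm (ineq0 hT hS hfix) ((le_iff hT.pos (Q_pos hS hfix)).2 fun x => ?_)
      have h2 := congrArg (fun Z => q Z x) (Q2 hS hfix)
      simp only [q_add, q_conj] at h2
      rw [hw x, hform x] at h2
      linarith
    have hTW : T = W * P := by
      ext x
      have h1 : ‖star W (T x)‖ = ‖T x‖ := by
        have := congrArg (fun Z : H →L[ℂ] H => Z x) hQ
        have h2 : star W (T x) = P x := this
        rw [h2, hT.norm]
      have h3 := hS.range h1
      have h4 : star W (T x) = P x := congrArg (fun Z : H →L[ℂ] H => Z x) hQ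
      rw [h4] at h3
      rw [mulx, h3]
    have hS1 : A * V * A = T := by rw [hS.eq, hRP, ← hTW]
    have hPW : P * W = T := by
      rw [hS1, hRP] at hfix
      exact (add_left_cancel hfix).symm
    have hcomm : P * T = T * P := by
      calc P * T = P * (W * P) := by rw [← hTW]
        _ = (P * W) * P := by rw [mul_assoc]
        _ = T * P := by rw [hPW]
    rw [← hT.sq, ← mul_assoc, ← hcomm, mul_assoc, ← hcomm, ← mul_assoc]

lemma comm_pol (hT : Pol T V P) (hA : 0 ≤ A) (hAP : A * A = P) (hAT : A * T = T * A) :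
    A * V = V * A := by
  have hPA : P * A = A * P := by rw [← hAP, mul_assoc]
  have h1 : (A * V - V * A) * P = 0 := by
    rw [sub_mul, mul_assoc, ← hT.eq, mul_assoc, ← hPA, ← mul_assoc, ← hT.eq, hAT, sub_self]
  have hX : (A * V - V * A) * (star V * V) = A * V - V * A := by
    rw [sub_mul, mul_assoc A V, ← mul_assoc V (star V), hT.pi, mul_assoc V A, hT.AF hA hAP]
  have h2 : P * star (A * V - V * A) = 0 := by
    have := congrArg star h1
    rwa [star_mul, (IsSelfAdjoint.of_nonneg hT.pos).star_eq, star_zero] at this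
  have h3 : (star V * V) * star (A * V - V * A) = 0 := by
    ext y
    have h4 : P (star (A * V - V * A) y) = 0 := by
      have := congrArg (fun Z : H →L[ℂ] H => Z y) h2
      exact this
    rw [mulx, mulx, (hT.kerP _).2 h4, map_zero]
    rfl
  have h5 : (A * V - V * A) * (star V * V) = 0 := by
    have := congrArg star h3
    rwa [star_mul, star_mul, star_star, star_star, star_zero] at this
  rw [hX] at h5
  exact sub_eq_zero.1 h5

theorem backward (hT : Pol T V P) (hA : 0 ≤ A) (hAP : A * A = P) (hS : Pol (A * V * A) W R)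
    (hq : T * (star T * T) = star T * T * T) : T + T = A * V * A + R * W := by
  have c1 : Commute (P * P) T := by
    rw [hT.sq]; exact hq.symm
  have c2 : Commute P T := by
    have : Commute (CFC.sqrt (P * P)) T := by
      unfold CFC.sqrt
      exact Commute.cfcₙ_nnreal c1 _
    rwa [CFC.sqrt_mul_self P hT.pos] at this
  have c3 : Commute A T := by
    have h1 : CFC.sqrt P = A := by rw [← hAP]; exact CFC.sqrt_mul_self A hA
    have : Commute (CFC.sqrt P) T := by
      unfold CFC.sqrt
      exact Commute.cfcₙ_nnreal c2 _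
    rwa [h1] at this
  have h1 := comm_pol hT hA hAP c3.eq
  have hS1 : A * V * A = T := by rw [h1, mul_assoc, hAP, ← hT.eq]
  rw [hS1] at hS ⊢
  have hRP : R = P := by
    have h2 : R * R = P * P := by rw [hS.sq, hT.sq]
    have h3 := congrArg CFC.sqrt h2
    rwa [CFC.sqrt_mul_self R hS.pos, CFC.sqrt_mul_self P hT.pos] at h3
  rw [hRP] at hS ⊢
  have h4 := comm_pol hS hA hAP c3.eq
  have h5 : P * W = T := by
    rw [← hAP, mul_assoc, h4, ← mul_assoc, h4, mul_assoc, hAP, ← hS.eq]
  rw [h5]

end Pool.Agent.Q301.MA
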