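import Pool.Agent.Q301.MA.Core
set_option autoImplicit false
set_option linter.unusedSectionVars false

/-! Fixed points of the mean-Aluthge transform: the main argument. -/

namespace Pool.Agent.Q301.MA

open scoped InnerProductSpace
open ContinuousLinearMap Set Filter Topology

variable {H : Type*} [NormedAddCommGroup H] [InnerProductSpace ℂ H] [CompleteSpace H]
variable {T V P A W R : H →L[ℂ] H}

lemma q_add (X Y : H →L[ℂ] H) (x : H) : q (X + Y) x = q X x + q Y x := by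
  unfold q
  rw [show (X + Y) x = X x + Y x from rfl, inner_add_left, map_add]

lemma q_conj (X Y : H →L[ℂ] H) (x : H) : q (star Y * X * Y) x = q X (Y x) := by
  unfold q
  rw [mulx, mulx, star_inner]

lemma normV (h : Pol T V P) (hA : 0 ≤ A) (hAP : A * A = P) (x : H) : ‖V (A x)‖ = ‖A x‖ := by
  have h1 := h.normVA hA hAP x (A x)
  rw [inner_self_eq_norm_sq_to_K, inner_self_eq_norm_sq_to_K] at h1
  have h2 : ‖V (A x)‖ ^ 2 = ‖A x‖ ^ 2 := by exact_mod_cast h1
  exact (sq_eq_sq₀ (norm_nonneg _) (norm_nonneg _)).1 h2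

/-- first inequality -/
lemma ineq1 (hT : Pol T V P) (hA : 0 ≤ A) (hAP : A * A = P) (hS : Pol (A * V * A) W R) (x : H) :
    q R x ^ 2 ≤ q P (W x) * q P x := by
  have h1 : inner ℂ (A (W x)) (V (A x)) = inner ℂ x (R x) := by
    rw [sa_inner hA]
    have h2 : A (V (A x)) = W (R x) := by
      have := congrArg (fun Z : H →L[ℂ] H => Z x) hS.eq
      simpa [mulx] using this
    have h3 := congrArg (fun Z : H →L[ℂ] H => Z x) hS.FP'
    have h4 : star W (W (R x)) = R x := by simpa [mulx] using h3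
    rw [h2, ← inner_conj_symm, ← star_inner W (W (R x)) x, h4, inner_conj_symm]
  have h5 : q R x ≤ ‖A (W x)‖ * ‖A x‖ := by
    have h6 : q R x = RCLike.re (inner ℂ (A (W x)) (V (A x))) := by
      rw [h1]
      unfold q
      rw [sa_inner hS.pos]
    rw [h6]
    refine (RCLike.re_le_norm _).trans ((norm_inner_le_norm _ _).trans (le_of_eq ?_))
    rw [normV hT hA hAP]
  calc q R x ^ 2 ≤ (‖A (W x)‖ * ‖A x‖) ^ 2 := pow_le_pow_left₀ (q_nonneg hS.pos x) h5 2
    _ = q P (W x) * q P x := by rw [mul_pow, norm_half hA hAP, norm_half hA hAP]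

lemma Q2 (hS : Pol (A * V * A) W R) (hfix : T + T = A * V * A + R * W) :
    star W * T + star W * T = R + star W * R * W := by
  rw [← mul_add, hfix, mul_add]
  have h1 : star W * (A * V * A) = R := by
    rw [hS.eq, ← mul_assoc]
    exact hS.FP'
  rw [h1, mul_assoc]

lemma Q_pos (hS : Pol (A * V * A) W R) (hfix : T + T = A * V * A + R * W) :
    0 ≤ star W * T := by
  have h1 := Q2 hS hfix
  have h2 : 0 ≤ R + star W * R * W :=
    add_nonneg hS.pos (star_left_conjugate_nonneg hS.pos W)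
  have h3 : star W * T = (1 / 2 : ℝ) • (R + star W * R * W) := by
    rw [← h1, ← two_smul ℝ (star W * T), smul_smul]
    norm_num
  rw [h3]
  exact smul_nonneg (by norm_num) h2

lemma ineq0 (hT : Pol T V P) (hS : Pol (A * V * A) W R)
    (hfix : T + T = A * V * A + R * W) : star W * T ≤ P := by
  refine sq_mono (Q_pos hS hfix) hT.pos fun x => ?_
  rw [mulx, ← hT.norm]
  exact hS.norm_star_le _

lemma ineq0' (hT : Pol T V P) (hS : Pol (A * V * A) W R)
    (hfix : T + T = A * V * A + R * W) (x : H) : q R x + q R (W x) ≤ 2 * q P x := by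
  have h1 := (le_iff (Q_pos hS hfix) hT.pos).1 (ineq0 hT hS hfix) x
  have h2 := congrArg (fun Z => q Z x) (Q2 hS hfix)
  simp only [q_add, q_conj] at h2
  linarith

/-- second inequality -/
lemma ineq2 (hT : Pol T V P) (hA : 0 ≤ A) (hAP : A * A = P) (hS : Pol (A * V * A) W R)
    (hfix : T + T = A * V * A + R * W) {a b : ℝ} (hb0 : 0 ≤ b) (ha2 : a ≤ 2)
    (hb : ∀ x, q R x ≤ b * q P x) (ha : ∀ x, a * q P x ≤ q R x) (x : H) :
    2 * ‖P x‖ ≤ (1 + Real.sqrt (b * (2 - a))) * ‖R x‖ := by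
  obtain ⟨B, hB, hBR⟩ : ∃ B : H →L[ℂ] H, 0 ≤ B ∧ B * B = R :=
    ⟨CFC.sqrt R, CFC.sqrt_nonneg R, CFC.sqrt_mul_sqrt_self R hS.pos⟩
  have hAA : ∀ y, A (A y) = P y := fun y => by rw [← hAP]; rfl
  have hBB : ∀ y, B (B y) = R y := fun y => by rw [← hBR]; rfl
  have hSn : ∀ y, ‖A (V (A y))‖ = ‖R y‖ := fun y => hS.norm y
  have e1 : inner ℂ (P x) (P x) = inner ℂ (V (A x)) (T (A x)) := by
    have h1 : T (A x) = V (P (A x)) := by rw [hT.eq]; rfl
    rw [h1, hT.normVA hA hAP, ← hAA (A x), ← sa_inner hA, hAA]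
  have e2 : 2 * ‖P x‖ ^ 2 = RCLike.re (inner ℂ (V (A x)) (A (V (A (A x)))) : ℂ) +
      RCLike.re (inner ℂ (V (A x)) (R (W (A x))) : ℂ) := by
    have h1 : T (A x) + T (A x) = A (V (A (A x))) + R (W (A x)) := by
      have := congrArg (fun Z : H →L[ℂ] H => Z (A x)) hfix
      exact this
    have h2 : ‖P x‖ ^ 2 = RCLike.re (inner ℂ (V (A x)) (T (A x)) : ℂ) := by
      rw [← e1, inner_self_eq_norm_sq]
    rw [← map_add, ← inner_add_right, ← h1, inner_add_right, map_add, ← h2]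
    ring
  have e3 : RCLike.re (inner ℂ (V (A x)) (A (V (A (A x)))) : ℂ) ≤ ‖R x‖ * ‖P x‖ := by
    rw [← sa_inner hA]
    refine (RCLike.re_le_norm _).trans ((norm_inner_le_norm _ _).trans (le_of_eq ?_))
    rw [hSn, normV hT hA hAP, hAA]
  have e4 : RCLike.re (inner ℂ (V (A x)) (R (W (A x))) : ℂ) ≤ ‖B (V (A x))‖ * ‖B (W (A x))‖ := by
    rw [← hBB, ← sa_inner hB]
    exact (RCLike.re_le_norm _).trans (norm_inner_le_norm _ _)
  have e5 : ‖B (V (A x))‖ ^ 2 ≤ b * ‖R x‖ ^ 2 := by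
    rw [norm_half hB hBR]
    refine (hb _).trans (le_of_eq ?_)
    rw [← norm_half hA hAP, hSn]
  have e6 : ‖B (W (A x))‖ ^ 2 ≤ (2 - a) * ‖P x‖ ^ 2 := by
    rw [norm_half hB hBR]
    have h1 := ineq0' hT hS hfix (A x)
    have h2 := ha (A x)
    have h3 : q P (A x) = ‖P x‖ ^ 2 := by rw [← norm_half hA hAP, hAA]
    rw [h3] at h1 h2
    linarith
  have e7 : ‖B (V (A x))‖ * ‖B (W (A x))‖ ≤ Real.sqrt (b * (2 - a)) * (‖R x‖ * ‖P x‖) := by
    have h1 : (‖B (V (A x))‖ * ‖B (W (A x))‖) ^ 2 ≤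
        (Real.sqrt (b * (2 - a)) * (‖R x‖ * ‖P x‖)) ^ 2 := by
      rw [mul_pow, mul_pow _ (‖R x‖ * ‖P x‖), Real.sq_sqrt (mul_nonneg hb0 (by linarith))]
      calc ‖B (V (A x))‖ ^ 2 * ‖B (W (A x))‖ ^ 2 ≤ (b * ‖R x‖ ^ 2) * ((2 - a) * ‖P x‖ ^ 2) :=
            mul_le_mul e5 e6 (sq_nonneg _) (mul_nonneg hb0 (sq_nonneg _))
        _ = b * (2 - a) * (‖R x‖ * ‖P x‖) ^ 2 := by ring
    exact (pow_le_pow_iff_left₀ (by positivity) (by positivity) two_ne_zero).1 h1
  rcases (norm_nonneg (P x)).eq_or_lt with h0 | h0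
  · rw [← h0, mul_zero]
    exact mul_nonneg (by positivity) (norm_nonneg _)
  · have : 2 * ‖P x‖ * ‖P x‖ ≤ (1 + Real.sqrt (b * (2 - a))) * ‖R x‖ * ‖P x‖ := by nlinarith
    exact le_of_mul_le_mul_right this h0

/-- the numerical lemma -/
lemma numbers {a b : ℝ} (ha0 : 0 ≤ a) (hab : a ≤ b) (h1 : a * b ^ 2 + b ≤ 2)
    (h2 : 2 ≤ a * (1 + Real.sqrt (b * (2 - a)))) : a = 1 ∧ b = 1 := by
  have hb0 : 0 ≤ b := ha0.trans hab
  have hb2 : b ≤ 2 := by nlinarith [mul_nonneg ha0 (sq_nonneg b)]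
  have ha : 0 < a := by
    rcases ha0.eq_or_lt with h | h
    · rw [← h] at h2; linarith
    · exact h
  have hbpos : 0 < b := ha.trans_le hab
  have hb2' : b < 2 := by nlinarith [mul_pos ha (pow_pos hbpos 2)]
  have ha2 : 0 < 2 - a := by linarith
  have h3 : 2 - a ≤ a * Real.sqrt (b * (2 - a)) := by linarith
  have h4 : (2 - a) ^ 2 ≤ a ^ 2 * (b * (2 - a)) := by
    have := pow_le_pow_left₀ ha2.le h3 2
    rwa [mul_pow, Real.sq_sqrt (mul_nonneg hb0 ha2.le)] at this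
  have h5 : 2 - a ≤ a ^ 2 * b := by
    have : (2 - a) * (2 - a) ≤ (a ^ 2 * b) * (2 - a) := by nlinarith
    exact le_of_mul_le_mul_right this ha2
  have h6 : b ≤ a := by
    by_contra hn
    push Not at hn
    have : 0 < (b - a) * (a * b + 1) := mul_pos (by linarith) (by positivity)
    nlinarith
  have h7 : a = b := le_antisymm hab h6
  subst h7
  have h8 : (a - 1) * (a ^ 2 + a + 2) = 0 := by nlinarith
  rcases mul_eq_zero.1 h8 with h | h
  · have : a = 1 := by linarith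
    exact ⟨this, this⟩
  · nlinarith [sq_nonneg a]

end Pool.Agent.Q301.MA
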