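import Pool.Agent.Q301.MA.Final
set_option autoImplicit false
set_option linter.unusedSectionVars false

/-! Existence and uniqueness of the polar decomposition. -/

namespace Pool.Agent.Q301.MA

open scoped InnerProductSpace
open ContinuousLinearMap Set Filter Topology

variable {H : Type*} [NormedAddCommGroup H] [InnerProductSpace ℂ H] [CompleteSpace H]

theorem exists_pol (T P : H →L[ℂ] H) (hP : 0 ≤ P) (hsq : P * P = star T * T) :
    ∃ V, Pol T V P := by
  have hnorm : ∀ x, ‖T x‖ = ‖P x‖ := by
    intro x
    have hP' : star P = P := (IsSelfAdjoint.of_nonneg hP).star_eq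
    have h1 : q (star T * T) x = q (star P * P) x := by rw [hP', hsq]
    rw [sq_norm, sq_norm] at h1
    exact (sq_eq_sq₀ (norm_nonneg _) (norm_nonneg _)).1 h1
  let M : Submodule ℂ H := (LinearMap.range (P : H →ₗ[ℂ] H)).topologicalClosure
  have hMc : IsClosed (M : Set H) := Submodule.isClosed_topologicalClosure _
  have : CompleteSpace M := hMc.completeSpace_coe
  have hPM : ∀ x, P x ∈ M := fun x => Submodule.le_topologicalClosure _ ⟨x, rfl⟩
  let e : H →ₗ[ℂ] M := LinearMap.codRestrict M (P : H →ₗ[ℂ] H) hPM
  have he : ∀ x, ((e x : M) : H) = P x := fun x => rfl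
  have hen : ∀ x, ‖e x‖ = ‖P x‖ := fun x => rfl
  have hde : DenseRange e := by
    intro m
    have hm : (m : H) ∈ closure (Set.range P) := by
      have := m.2
      exact this
    rw [mem_closure_iff_seq_limit] at hm ⊢
    obtain ⟨u, hu, hlim⟩ := hm
    choose w hw using hu
    refine ⟨fun n => e (w n), fun n => ⟨w n, rfl⟩, ?_⟩
    rw [tendsto_subtype_rng]
    have : (fun n => ((e (w n) : M) : H)) = u := by
      funext n
      rw [he, hw]
    rw [this]
    exact hlim
  let V0 : M →L[ℂ] H := (T : H →ₗ[ℂ] H).extendOfNorm e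
  have hV0 : ∀ x, V0 (e x) = T x := fun x =>
    LinearMap.extendOfNorm_eq hde ⟨1, fun x => by rw [one_mul, hen]; exact (hnorm x).le⟩ x
  have hV0n : ∀ m : M, ‖V0 m‖ = ‖m‖ := by
    intro m
    refine hde.induction_on (p := fun m : M => ‖V0 m‖ = ‖m‖) m
      (isClosed_eq V0.continuous.norm continuous_norm) fun x => ?_
    rw [hV0, hen, hnorm]
  let V : H →L[ℂ] H := V0.comp (M.orthogonalProjectionOnto)
  have hVdef : ∀ x, V x = V0 (M.orthogonalProjectionOnto x) := fun x => rfl
  have hVn : ∀ x, ‖V x‖ = ‖M.orthogonalProjectionOnto x‖ := fun x => hV0n _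
  have hVker : ∀ x, V x = 0 ↔ M.orthogonalProjectionOnto x = 0 := fun x => by
    rw [← norm_eq_zero, hVn, norm_eq_zero]
  have hPker : ∀ x, M.orthogonalProjectionOnto x = 0 ↔ P x = 0 := by
    intro x
    rw [Submodule.orthogonalProjectionOnto_eq_zero_iff]
    constructor
    · intro hx
      have h1 : inner ℂ (P (P x)) x = 0 := (Submodule.mem_orthogonal M x).1 hx _ (hPM _)
      have h2 : inner ℂ (P x) (P x) = 0 := by rw [← sa_inner hP]; exact h1
      exact inner_self_eq_zero.1 h2
    · intro hx
      have h1 : x ∈ (LinearMap.range (P : H →ₗ[ℂ] H))ᗮ := by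
        rw [Submodule.mem_orthogonal]
        rintro _ ⟨y, rfl⟩
        show inner ℂ (P y) x = 0
        rw [sa_inner hP, hx, inner_zero_right]
      show x ∈ Mᗮ
      rw [Submodule.orthogonal_closure]
      exact h1
  refine ⟨V, hP, hsq, ?_, ?_, ?_⟩
  · ext x
    rw [mulx, hVdef]
    have : M.orthogonalProjectionOnto (P x) = e x :=
      Submodule.orthogonalProjectionOnto_mem_subspace_eq_self (K := M) (e x)
    rw [this, hV0]
  · have hF : star V * V = M.starProjection := by
      have h1 : star M.starProjection * M.starProjection = M.starProjection := by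
        rw [(isSelfAdjoint_starProjection M).star_eq]
        exact M.isIdempotentElem_starProjection
      have hpos : 0 ≤ M.starProjection := by
        rw [← h1]; exact star_mul_self_nonneg _
      have hq : ∀ x, q (star V * V) x = q M.starProjection x := by
        intro x
        rw [sq_norm, hVn, ← h1, sq_norm]
        rfl
      exact le_antisymm ((le_iff (star_mul_self_nonneg V) hpos).2 fun x => (hq x).le)
        ((le_iff hpos (star_mul_self_nonneg V)).2 fun x => (hq x).ge)
    rw [mul_assoc, hF]
    ext x
    rw [mulx, hVdef, hVdef]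
    congr 1
    exact Submodule.orthogonalProjectionOnto_mem_subspace_eq_self (K := M) _
  · intro x
    rw [hVker, hPker, ← norm_eq_zero, ← hnorm, norm_eq_zero]

theorem unique_pol {T V V' P : H →L[ℂ] H} (h : Pol T V P) (h' : Pol T V' P) : V = V' := by
  have h1 : (V - V') * P = 0 := by rw [sub_mul, ← h.eq, ← h'.eq, sub_self]
  have hX : (V - V') * (star V * V) = V - V' := by
    rw [sub_mul, ← mul_assoc, h.pi]
    congr 1
    ext x
    have h2 : V (x - (star V * V) x) = 0 := by
      rw [map_sub, sub_eq_zero]
      have := congrArg (fun Z : H →L[ℂ] H => Z x) h.pi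
      simpa [mulx] using this.symm
    have h3 := (h'.ker _).2 ((h.ker _).1 h2)
    rw [map_sub, sub_eq_zero] at h3
    rw [mulx, ← h3]
  have h2 : P * star (V - V') = 0 := by
    have := congrArg star h1
    rwa [star_mul, (IsSelfAdjoint.of_nonneg h.pos).star_eq, star_zero] at this
  have h3 : (star V * V) * star (V - V') = 0 := by
    ext y
    have h4 : P (star (V - V') y) = 0 := congrArg (fun Z : H →L[ℂ] H => Z y) h2
    rw [mulx, mulx, (h.kerP _).2 h4, map_zero]
    rfl
  have h5 : (V - V') * (star V * V) = 0 := by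
    have := congrArg star h3
    rwa [star_mul, star_mul, star_star, star_star, star_zero] at this
  rw [hX] at h5
  exact sub_eq_zero.1 h5

end Pool.Agent.Q301.MA
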